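import Mathlib
import Pool.Agent.MP_0d7d47_co.H52.Geom

/-! The plane can be tiled by integer-sided triangles no two of which are similar. -/

namespace Pool.Agent.Results.MP_0d7d47_co.Tiling

open Pool.Agent.MP_0d7d47_co.H52

theorem result :
    ∃ T : ℕ → Affine.Triangle ℝ (EuclideanSpace ℝ (Fin 2)),
      (⋃ i, convexHull ℝ (Set.range (T i).points)) = Set.univ ∧
      (∀ i j, i ≠ j → Disjoint (interior (convexHull ℝ (Set.range (T i).points)))
        (interior (convexHull ℝ (Set.range (T j).points)))) ∧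
      (∀ i, ∀ a b : Fin 3, a ≠ b →
        ∃ n : ℕ, 0 < n ∧ dist ((T i).points a) ((T i).points b) = n) ∧
      (∀ i j, i ≠ j → ∀ σ : Equiv.Perm (Fin 3), ¬ Similar (T i).points ((T j).points ∘ σ)) ∧
      (∀ R : ℝ, {i | ∃ p ∈ convexHull ℝ (Set.range (T i).points), ‖p‖ ≤ R}.Finite) := by
  obtain ⟨e⟩ : Nonempty (ℕ ≃ (Bool × Bool) × ℕ) := nonempty_equiv_of_countable
  refine ⟨fun i => tri (e i).1 (e i).2, ?_, ?_, ?_, ?_, ?_⟩
  · rw [Set.eq_univ_iff_forall]
    intro p
    obtain ⟨q, k, h⟩ := cover p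
    refine Set.mem_iUnion.2 ⟨e.symm (q, k), ?_⟩
    simp only [e.apply_symm_apply]
    exact h
  · intro i j h
    exact disjoint_all (e.injective.ne h)
  · intro i a b h
    exact dist_int _ _ h
  · intro i j h σ
    exact not_similar (e.injective.ne h) σ
  · intro R
    exact Set.Finite.preimage (f := e) e.injective.injOn (finite_meet R)

end Pool.Agent.Results.MP_0d7d47_co.Tiling
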